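import Mathlib
import Pool.Agent.Helper18.RL.Goals

set_option autoImplicit false
set_option linter.unusedSectionVars false

namespace Pool.Agent.Helper15.RL

open Finset Pool.Agent.Helper37.RG3 Pool.Agent.Helper18.RL

section sep

variable {V : Type} [Fintype V] [DecidableEq V] {U K Y : Finset V} {w : V → V → ℕ} {r : ℕ}
  {a b c : V}

theorem subK (hs : Sep U w K Y a b c) : K ⊆ U := by
  rw [hs.un]
  intro x hx
  simp [hx]

theorem subY (hs : Sep U w K Y a b c) : Y ⊆ U := by
  rw [hs.un]
  intro x hx
  simp [hx]

theorem memN (hs : Sep U w K Y a b c) {v : V} (hv : v = a ∨ v = b ∨ v = c) : v ∈ U := by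
  rw [hs.un]
  simp only [mem_union, mem_insert, mem_singleton]
  exact Or.inr hv

theorem disjYN (hs : Sep U w K Y a b c) : Disjoint Y ({a, b, c} : Finset V) := by
  rw [disjoint_left]
  intro x hx hn
  simp only [mem_insert, mem_singleton] at hn
  rcases hn with rfl | rfl | rfl
  · exact hs.aY hx
  · exact hs.bY hx
  · exact hs.cY hx

theorem disjKN (hs : Sep U w K Y a b c) : Disjoint K ({a, b, c} : Finset V) := by
  rw [disjoint_left]
  intro x hx hn
  simp only [mem_insert, mem_singleton] at hn
  rcases hn with rfl | rfl | rfl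
  · exact hs.aX hx
  · exact hs.bX hx
  · exact hs.cX hx

theorem cardU (hs : Sep U w K Y a b c) : U.card = K.card + Y.card + 3 := by
  have h3 : ({a, b, c} : Finset V).card = 3 :=
    card_eq_three.2 ⟨a, b, c, hs.ab, hs.ac, hs.bc, rfl⟩
  rw [hs.un, card_union_of_disjoint (disjoint_union_left.2 ⟨disjKN hs, disjYN hs⟩),
    card_union_of_disjoint hs.xy, h3]

theorem bt_N (hs : Sep U w K Y a b c) (v : V) :
    bt w {v} ({a, b, c} : Finset V) = w v a + w v b + w v c := by
  rw [bt_singleton_left, sum_insert, sum_insert, sum_singleton]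
  · omega
  · simpa using hs.bc
  · simp only [mem_insert, mem_singleton, not_or]
    exact ⟨hs.ab, hs.ac⟩

theorem deg_split (h : RG U w r) (hs : Sep U w K Y a b c) {v : V} (hv : v ∈ U) :
    bt w {v} K + bt w {v} Y + (w v a + w v b + w v c) = r := by
  have h1 := h.bt_deg' (X := {v}) (by simpa using hv)
  rw [card_singleton, mul_one] at h1
  conv_lhs at h1 => rw [hs.un]
  rw [bt_union_right w _ (disjoint_union_left.2 ⟨disjKN hs, disjYN hs⟩),
    bt_union_right w _ hs.xy, bt_N hs] at h1
  exact h1

theorem bt_to_N (h : RG U w r) (hs : Sep U w K Y a b c) (A : Finset V) :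
    bt w A ({a, b, c} : Finset V) = bt w {a} A + bt w {b} A + bt w {c} A := by
  have e : ({a, b, c} : Finset V) = {a} ∪ ({b} ∪ {c}) := by
    ext x
    simp only [mem_union, mem_insert, mem_singleton]
  rw [e, bt_union_right w _ (by
      simp only [disjoint_singleton_left, mem_union, mem_singleton, not_or]
      exact ⟨hs.ab, hs.ac⟩),
    bt_union_right w _ (by
      simp only [disjoint_singleton_left, mem_singleton]
      exact hs.bc), bt_comm w h.symm A {a}, bt_comm w h.symm A {b}, bt_comm w h.symm A {c}]
  omega

theorem ctK (h : RG U w r) (hs : Sep U w K Y a b c) :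
    ct w K = bt w {a} K + bt w {b} K + bt w {c} K := by
  have e : U \ K = Y ∪ {a, b, c} := by
    rw [hs.un]
    have h1 := hs.xy
    have h2 := disjKN hs
    rw [disjoint_left] at h1 h2
    ext x
    simp only [mem_sdiff, mem_union]
    have := @h1 x
    have := @h2 x
    tauto
  rw [h.ct_eq, e, bt_union_right w _ (disjYN hs), bt_to_N h hs]
  have h0 : bt w K Y = 0 := (bt_eq_zero w).2 hs.zero
  omega

theorem ctaY (h : RG U w r) (hs : Sep U w K Y a b c) :
    ct w (insert a Y) = bt w {a} K + (w a b + w a c) + (bt w {b} Y + bt w {c} Y) := by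
  have e : U \ insert a Y = K ∪ ({b} ∪ {c}) := by
    rw [hs.un]
    have h1 := hs.xy
    rw [disjoint_left] at h1
    have := hs.aX
    have := hs.bY
    have := hs.cY
    have := hs.ab
    have := hs.ac
    ext x
    simp only [mem_sdiff, mem_union, mem_insert, mem_singleton]
    have := @h1 x
    constructor
    · tauto
    · rintro (hx | rfl | rfl)
      · refine ⟨by tauto, ?_⟩
        rintro (rfl | hxY)
        · tauto
        · tauto
      · refine ⟨by tauto, ?_⟩
        rintro (hx | hxY)
        · exact hs.ab hx.symm
        · tauto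
      · refine ⟨by tauto, ?_⟩
        rintro (hx | hxY)
        · exact hs.ac hx.symm
        · tauto
  have dbc : Disjoint ({b} : Finset V) {c} := by
    simp only [disjoint_singleton_left, mem_singleton]
    exact hs.bc
  have dK : Disjoint K ({b} ∪ {c} : Finset V) := by
    rw [disjoint_left]
    intro x hx hn
    simp only [mem_union, mem_singleton] at hn
    rcases hn with rfl | rfl
    · exact hs.bX hx
    · exact hs.cX hx
  have dY : Disjoint ({a} : Finset V) Y := by
    simp only [disjoint_singleton_left]
    exact hs.aY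
  rw [h.ct_eq, e, ← singleton_union, bt_union_left w dY, bt_union_right w _ dK,
    bt_union_right w _ dK, bt_union_right w _ dbc, bt_union_right w _ dbc, bt_pair, bt_pair,
    bt_comm w h.symm Y {b}, bt_comm w h.symm Y {c}]
  have h0 : bt w Y K = 0 := by
    rw [bt_comm w h.symm]
    exact (bt_eq_zero w).2 hs.zero
  omega

/-- the indicator of `m v ∈ K` -/
def ind (m : V → V) (K : Finset V) (v : V) : ℕ := if m v ∈ K then 1 else 0

theorem ind_le (m : V → V) (K : Finset V) (v : V) : ind m K v ≤ 1 := by
  unfold ind
  split_ifs <;> omega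

theorem ind_one {m : V → V} {K : Finset V} {v : V} (h : ind m K v = 1) : m v ∈ K := by
  unfold ind at h
  by_contra hc
  rw [if_neg hc] at h
  omega

theorem ind_zero {m : V → V} {K : Finset V} {v : V} (h : ind m K v = 0) : m v ∉ K := by
  unfold ind at h
  intro hc
  rw [if_pos hc] at h
  omega

theorem out_K (h : RG U w r) (hs : Sep U w K Y a b c) {m : V → V} (hm : PM U w m) {x : V}
    (hx : x ∈ K) : m x ∈ K ∨ m x = a ∨ m x = b ∨ m x = c := by
  have h1 := hm.mem h (subK hs hx)
  rw [hs.un] at h1
  simp only [mem_union, mem_insert, mem_singleton] at h1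
  rcases h1 with (h1 | h1) | h1
  · exact Or.inl h1
  · exact absurd (hs.zero x hx _ h1) (hm.adj x (subK hs hx))
  · exact Or.inr h1

theorem cr_K (h : RG U w r) (hs : Sep U w K Y a b c) {m : V → V} (hm : PM U w m) :
    cr m K = ind m K a + ind m K b + ind m K c := by
  have h1 : cr m K = (({a, b, c} : Finset V).filter fun v => m v ∈ K).card := by
    unfold cr
    refine Finset.card_bij' (fun x _ => m x) (fun x _ => m x) ?_ ?_ ?_ ?_
    · intro x hx
      rw [mem_filter] at hx ⊢
      rw [hm.invol]
      refine ⟨?_, hx.1⟩
      simp only [mem_insert, mem_singleton]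
      rcases out_K h hs hm hx.1 with h2 | h2
      · exact absurd h2 hx.2
      · exact h2
    · intro x hx
      rw [mem_filter] at hx ⊢
      rw [hm.invol]
      refine ⟨hx.2, fun hc => ?_⟩
      exact disjoint_left.1 (disjKN hs) hc hx.1
    · intro x _
      exact hm.invol x
    · intro x _
      exact hm.invol x
  rw [h1, card_filter, sum_insert, sum_insert, sum_singleton]
  · unfold ind
    omega
  · simpa using hs.bc
  · simp only [mem_insert, mem_singleton, not_or]
    exact ⟨hs.ab, hs.ac⟩

end sep

theorem gtyo (hcls : G_CLS) : G_TYO := by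
  intro V _ _ U K Y w r a b c h hr hnt hs hodd hK2 hY2
  obtain ⟨k, σ, hk, hpm, -, hdc⟩ := hcls V U w r h
  have hK3 : 3 ≤ K.card := by
    obtain ⟨j, hj⟩ := hodd
    omega
  have hcU := cardU hs
  have hYe : Even Y.card := by
    have h1 := h.even_card hr
    obtain ⟨i, hi⟩ := h1
    obtain ⟨j, hj⟩ := hodd
    exact ⟨i - j - 2, by omega⟩
  have hsum : ∀ v, v = a ∨ v = b ∨ v = c → ∑ i, ind (σ i) K v = k * bt w {v} K := by
    intro v hv
    rw [← hdc {v} K (by simpa using memN hs hv) (by
      rw [disjoint_singleton_left]
      intro hvK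
      have := disjoint_left.1 (disjKN hs) hvK
      simp only [mem_insert, mem_singleton] at this
      exact this hv)]
    refine sum_congr rfl fun i _ => ?_
    unfold ind
    rw [card_filter, sum_singleton]
  have hsa := hsum a (Or.inl rfl)
  have hsb := hsum b (Or.inr (Or.inl rfl))
  have hsc := hsum c (Or.inr (Or.inr rfl))
  have hpar : ∀ i, (ind (σ i) K a + ind (σ i) K b + ind (σ i) K c) % 2 = 1 := by
    intro i
    rw [← cr_K h hs (hpm i), cr_parity h (hpm i) (subK hs)]
    exact Nat.odd_iff.1 hodd
  have hda := deg_split h hs (memN hs (Or.inl rfl))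
  have hdb := deg_split h hs (memN hs (v := b) (Or.inr (Or.inl rfl)))
  have hdc' := deg_split h hs (memN hs (v := c) (Or.inr (Or.inr rfl)))
  constructor
  · -- a class with `T = {a, b, c}`
    have hex : ∃ i, ind (σ i) K a + ind (σ i) K b + ind (σ i) K c = 3 := by
      by_contra hcon
      push Not at hcon
      have h1 : ∀ i, ind (σ i) K a + ind (σ i) K b + ind (σ i) K c = 1 := by
        intro i
        have := hpar i
        have := hcon i
        have := ind_le (σ i) K a
        have := ind_le (σ i) K b
        have := ind_le (σ i) K c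
        omega
      have h2 : ∑ i, (ind (σ i) K a + ind (σ i) K b + ind (σ i) K c) = k * r := by
        rw [sum_congr rfl fun i _ => h1 i]
        simp
      rw [sum_add_distrib, sum_add_distrib, hsa, hsb, hsc, ← mul_add, ← mul_add] at h2
      have h3 := Nat.eq_of_mul_eq_mul_left hk h2
      have h4 := hnt K (subK hs) hodd hK3 (by omega)
      rw [ctK h hs] at h4
      omega
    obtain ⟨i, hi⟩ := hex
    have ia := ind_le (σ i) K a
    have ib := ind_le (σ i) K b
    have ic := ind_le (σ i) K c
    have ha : σ i a ∈ K := ind_one (by omega)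
    have hb : σ i b ∈ K := ind_one (by omega)
    have hc : σ i c ∈ K := ind_one (by omega)
    refine ⟨σ i, ?_, ha, hb, hc⟩
    intro v hv
    simp only [mem_insert] at hv
    have hvU : v ∈ U := by
      rcases hv with hv | hv | hv | hv
      · exact memN hs (Or.inl hv)
      · exact memN hs (Or.inr (Or.inl hv))
      · exact memN hs (Or.inr (Or.inr hv))
      · exact subK hs hv
    refine ⟨?_, (hpm i).invol v, (hpm i).adj v hvU⟩
    simp only [mem_insert]
    rcases hv with rfl | rfl | rfl | hv
    · exact Or.inr (Or.inr (Or.inr ha))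
    · exact Or.inr (Or.inr (Or.inr hb))
    · exact Or.inr (Or.inr (Or.inr hc))
    · rcases out_K h hs (hpm i) hv with h1 | h1 | h1 | h1
      · exact Or.inr (Or.inr (Or.inr h1))
      · exact Or.inl h1
      · exact Or.inr (Or.inl h1)
      · exact Or.inr (Or.inr (Or.inl h1))
  · -- a class with `T = {a}`
    have hex : ∃ i, ind (σ i) K a = 1 ∧ ind (σ i) K b = 0 ∧ ind (σ i) K c = 0 := by
      by_contra hcon
      push Not at hcon
      have h1 : ∀ i, ind (σ i) K b + ind (σ i) K c = 1 + ind (σ i) K a := by
        intro i
        have h2 := hpar i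
        have h3 := hcon i
        have := ind_le (σ i) K a
        have := ind_le (σ i) K b
        have := ind_le (σ i) K c
        by_contra hne
        have ha1 : ind (σ i) K a = 1 := by omega
        have hb1 : ind (σ i) K b = 0 := by omega
        exact h3 ha1 hb1 (by omega)
      have h2 : ∑ i, (ind (σ i) K b + ind (σ i) K c) = ∑ i, (1 + ind (σ i) K a) :=
        sum_congr rfl fun i _ => h1 i
      rw [sum_add_distrib, sum_add_distrib, hsa, hsb, hsc, ← mul_add] at h2
      simp only [sum_const, card_univ, Fintype.card_fin, smul_eq_mul, mul_one] at h2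
      rw [← mul_add] at h2
      have h3 := Nat.eq_of_mul_eq_mul_left hk h2
      have hYo : Odd (insert a Y).card := by
        rw [card_insert_of_notMem hs.aY]
        exact hYe.add_one
      have h4 := hnt (insert a Y) (by
          rw [insert_subset_iff]
          exact ⟨memN hs (Or.inl rfl), subY hs⟩) hYo (by
          rw [card_insert_of_notMem hs.aY]
          omega) (by
          rw [card_insert_of_notMem hs.aY]
          omega)
      rw [ctaY h hs] at h4
      have e1 := h.irr a
      have e2 := h.irr b
      have e3 := h.irr c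
      have e4 := h.symm a b
      have e5 := h.symm a c
      have e6 := h.symm b c
      omega
    obtain ⟨i, ha, hb, hc⟩ := hex
    have ha := ind_one ha
    have hb := ind_zero hb
    have hc := ind_zero hc
    refine ⟨σ i, ?_⟩
    intro v hv
    rw [mem_insert] at hv
    have hvU : v ∈ U := by
      rcases hv with hv | hv
      · exact memN hs (Or.inl hv)
      · exact subK hs hv
    refine ⟨?_, (hpm i).invol v, (hpm i).adj v hvU⟩
    rw [mem_insert]
    rcases hv with rfl | hv
    · exact Or.inr ha
    · rcases out_K h hs (hpm i) hv with h1 | h1 | h1 | h1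
      · exact Or.inr h1
      · exact Or.inl h1
      · exfalso
        apply hb
        rw [← h1, (hpm i).invol]
        exact hv
      · exfalso
        apply hc
        rw [← h1, (hpm i).invol]
        exact hv

end Pool.Agent.Helper15.RL
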